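import Mathlib
import Pool.Agent.Helper76.PWF.Osd

/-!
# A condition on the zeros of zeta that is necessary for one-sided bounds of the error term in the
# count of powerful numbers, and necessary and sufficient for bounds in the mean

`Pool.PWF.E x = Q(x) - A x^(1/2) - B x^(1/3)`, `Q(x)` the number of powerful numbers up to `x`.
`ZeroCond b`: every `rho` with `b < Re rho < 1` satisfies `m(rho) <= m(rho/2) + m(rho/3)`, `m` the
order of vanishing of `zeta`. `MeanBound r`: for every `s > 1/2` there is `C` such that for all `k`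
the integral of `E(x) (log x)^k x^(-s-1)` is at most `C` times the integral of
`x^r (log x)^k x^(-s-1)` in absolute value. For `0 <= r < 1/6`, `ZeroCond (6 r)` follows from
`E(x) <= C x^r` (large `x`), from `E(x) >= -C x^r` (large `x`), and from `MeanBound r'` for all
`r' > r`, and it implies `MeanBound r'` for all `r < r' < 1/6`.
-/

set_option autoImplicit false

namespace Pool.Agent.Kept.MP_3c396f_nt.ZeroCriterion

open Pool.PWF

theorem result (r : ℝ) (h0 : 0 ≤ r) (h1 : r < 1 / 6) :
    (((∃ C x0 : ℝ, ∀ x : ℝ, x0 ≤ x → E x ≤ C * x ^ r) ∨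
      (∃ C x0 : ℝ, ∀ x : ℝ, x0 ≤ x → -(C * x ^ r) ≤ E x) ∨
      (∀ r' : ℝ, r < r' → r' < 1 / 6 → MeanBound r')) → ZeroCond (6 * r)) ∧
    (ZeroCond (6 * r) → ∀ r' : ℝ, r < r' → r' < 1 / 6 → MeanBound r') := by
  obtain ⟨c1, c2, c3⟩ := criterion h0 h1
  refine ⟨?_, c3.1⟩
  rintro (h | h | h)
  · exact c1 h
  · exact c2 h
  · exact c3.2 h

end Pool.Agent.Kept.MP_3c396f_nt.ZeroCriterion
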